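import Pool.Agent.Helper75.OE.GoalsB

/-!
Project OE, packet COMPARE: two histories agree on `C`.
-/

namespace Pool.Agent.Helper46.OE

open Pool.Agent.Helper73.OE Pool.Agent.Helper73.OE.Sys Pool.Agent.Helper75.OE

theorem fst_mem_Ex {H S L : Type} [Group H] (X : Sys H S L) (P : Par) (O : Edges H S)
    (f : Cfg H S L) (e : H × S) : e.1 ∈ Ex X P O f e := by
  left
  rw [X.dist_self]
  exact Nat.zero_le _

theorem snd_mem_Ex {H S L : Type} [Group H] (X : Sys H S L) (P : Par) (O : Edges H S)
    (f : Cfg H S L) (e : H × S) : X.nb e.1 e.2 ∈ Ex X P O f e := by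
  right
  left
  rw [X.dist_self]
  exact Nat.zero_le _

open Classical in
theorem compare (h1 : B_LOCU) : B_COMPARE := by
  intro H S L _ _ X P u b l
  induction l with
  | nil =>
    intro O1 O2 f1 f2 C hf hO h3 h4 h5 z hz
    exact hf z hz
  | cons e t ih =>
    intro O1 O2 f1 f2 C hf hO h3 h4 h5
    have hunch : ∀ (O : Edges H S) (f : Cfg H S L) (z : H), z ∉ Ex X P O f e →
        X.Upd P O e.1 e.2 (u e) f z = f z := fun O f =>
      (h1 H S L X P O O f f e (u e) (fun _ _ => rfl) (fun _ _ _ => Iff.rfl)).2.2
    have h42 := h4 e O2 f2 (Or.inl ⟨rfl, rfl, rfl⟩)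
    by_cases hb : b e
    · have hfil : (e :: t).filter (fun e => decide (b e)) =
          e :: t.filter (fun e => decide (b e)) := by
        simp [List.filter_cons, hb]
      rw [hfil] at h3 ⊢
      have h31 := h3 e O1 f1 (Or.inl ⟨rfl, rfl, rfl⟩)
      simp only [Sys.dynL]
      apply ih
      · intro z hz
        by_cases he : e.1 ∈ C
        · have hK1 : Ex X P O1 f1 e ⊆ C := by
            rcases h31 with h | h
            · exact h
            · exact absurd he (Set.disjoint_left.1 h (fst_mem_Ex X P O1 f1 e))
          obtain ⟨k1, k2, k3⟩ := h1 H S L X P O1 O2 f1 f2 e (u e)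
            (fun z hz => (hf z (hK1 hz)).symm) (fun z hz r => (hO z (hK1 hz) r).symm)
          by_cases hz1 : z ∈ Ex X P O1 f1 e
          · exact (k2 z hz1).symm
          · rw [hunch O1 f1 z hz1, hunch O2 f2 z (by rw [k1]; exact hz1)]
            exact hf z hz
        · have d1 : Disjoint (Ex X P O1 f1 e) C := by
            rcases h31 with h | h
            · exact absurd (h (fst_mem_Ex X P O1 f1 e)) he
            · exact h
          have d2 : Disjoint (Ex X P O2 f2 e) C := by
            rcases h42 with h | h
            · exact absurd (h (fst_mem_Ex X P O2 f2 e)) he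
            · exact h
          rw [hunch O1 f1 z (Set.disjoint_right.1 d1 hz), hunch O2 f2 z (Set.disjoint_right.1 d2 hz)]
          exact hf z hz
      · intro z hz r
        unfold Sys.addE
        rw [hO z hz r]
      · intro e' O' f' hr
        exact h3 e' O' f' (Or.inr hr)
      · intro e' O' f' hr
        exact h4 e' O' f' (Or.inr hr)
      · intro e' he'
        exact h5 e' (List.mem_cons_of_mem _ he')
    · have hfil : (e :: t).filter (fun e => decide (b e)) = t.filter (fun e => decide (b e)) := by
        simp [List.filter_cons, hb]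
      rw [hfil] at h3 ⊢
      have d2 : Disjoint (Ex X P O2 f2 e) C := by
        rcases h42 with h | h
        · rcases h5 e List.mem_cons_self hb with h6 | h6
          · exact absurd (h (fst_mem_Ex X P O2 f2 e)) h6
          · exact absurd (h (snd_mem_Ex X P O2 f2 e)) h6
        · exact h
      have e1 : e.1 ∉ C := fun h => Set.disjoint_left.1 d2 (fst_mem_Ex X P O2 f2 e) h
      have e2 : X.nb e.1 e.2 ∉ C := fun h => Set.disjoint_left.1 d2 (snd_mem_Ex X P O2 f2 e) h
      simp only [Sys.dynL]
      apply ih
      · intro z hz
        rw [hunch O2 f2 z (Set.disjoint_right.1 d2 hz)]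
        exact hf z hz
      · intro z hz r
        unfold Sys.addE
        rw [hO z hz r]
        constructor
        · intro h
          exact Or.inl h
        · rintro (h | h | h)
          · exact h
          · exact absurd (by rw [← h]; exact hz) e1
          · refine absurd ?_ e2
            have h7 : (X.rev e).1 = z := by rw [← h]
            have h8 : X.nb e.1 e.2 = z := h7
            rw [h8]
            exact hz
      · exact h3
      · intro e' O' f' hr
        exact h4 e' O' f' (Or.inr hr)
      · intro e' he'
        exact h5 e' (List.mem_cons_of_mem _ he')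

end Pool.Agent.Helper46.OE
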