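import Pool.Agent.Helper75.OE.GoalsA

/-!
Project OE, packet TLOC: the tripod move happens on the side and depends only on the side.
-/

namespace Pool.Agent.Helper46.OE

open Pool.Agent.Helper73.OE Pool.Agent.Helper73.OE.Sys Pool.Agent.Helper75.OE

variable {H S L : Type} [Group H] (X : Sys H S L)

theorem tau_inj {a b : L} (h : X.tau a = X.tau b) : a = b := by
  rw [← X.tau_tau a, h, X.tau_tau]

theorem arm_loc (h1 : A_LLOC) (h2 : A_PLOC) {O O' : Edges H S} (M : ℕ) {v : H} {p t : S} {w : L}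
    {f g : Cfg H S L} (htp : t ≠ p) (hw : w ≠ f v t) (hma : X.MA O (X.Sd v p) f)
    (hg : ∀ z ∈ X.Sd v p, g z = f z)
    (hO : ∀ z r, z ∈ X.Sd v p → X.nb z r ∈ X.Sd v p → (O' z r ↔ O z r)) :
    (X.ArmOk O' M g v t w ↔ X.ArmOk O M f v t w) ∧
    (∀ z, X.armP O' g z v t w = X.armP O f z v t w) ∧
    (∀ z, z ∉ X.Sd v p → X.armP O f z v t w = 1) := by
  have hsub : X.Sd (X.nb v t) (X.bar t) ⊆ X.Sd v p := X.branch_subset htp
  have hvt : X.nb v t ∈ X.Sd v p := hsub (X.self_mem_Sd _ _)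
  have hOt : O' v t ↔ O v t := hO v t (X.self_mem_Sd v p) hvt
  have hma' : X.MA O (X.Sd (X.nb v t) (X.bar t)) f :=
    fun z r hz hr ho => hma z r (hsub hz) (hsub hr) ho
  have hg' : ∀ z ∈ X.Sd (X.nb v t) (X.bar t), g z = f z := fun z hz => hg z (hsub hz)
  have hO' : ∀ z r, z ∈ X.Sd (X.nb v t) (X.bar t) → X.nb z r ∈ X.Sd (X.nb v t) (X.bar t) →
      (O' z r ↔ O z r) := fun z r hz hr => hO z r (hsub hz) (hsub hr)
  have hne : O v t → X.tau w ≠ f (X.nb v t) (X.bar t) := by
    intro ho h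
    have hm : X.Mt f v t := hma v t (X.self_mem_Sd v p) hvt ho
    unfold Sys.Mt at hm
    rw [hm] at h
    exact hw (tau_inj X h)
  refine ⟨?_, ?_, ?_⟩
  · unfold Sys.ArmOk
    constructor
    · intro h ho hl
      exact h (hOt.2 ho) ((h1 H S L X O O' _ _ _ f g (hne ho) hma' hg' hO' M).2 hl)
    · intro h ho hl
      exact h (hOt.1 ho) ((h1 H S L X O O' _ _ _ f g (hne (hOt.1 ho)) hma' hg' hO' M).1 hl)
  · intro z
    unfold Sys.armP
    by_cases ho : O v t
    · rw [if_pos ho, if_pos (hOt.2 ho)]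
      exact (h2 H S L X O O' _ _ _ f g (hne ho) hma' hg' hO' z _).2
    · rw [if_neg ho, if_neg (fun h => ho (hOt.1 h))]
  · intro z hz
    unfold Sys.armP
    by_cases ho : O v t
    · rw [if_pos ho]
      exact (h2 H S L X O O' _ _ _ f g (hne ho) hma' hg' hO' z _).1 (fun h => hz (hsub h))
    · rw [if_neg ho]

theorem key (h1 : A_LLOC) (h2 : A_PLOC) (O O' : Edges H S) (M : ℕ) (f g : Cfg H S L) (k : L) :
    ∀ (m : ℕ) (v : H) (p : S) (y : L), y ≠ f v p → X.MA O (X.Sd v p) f →
    (∀ z ∈ X.Sd v p, g z = f z) →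
    (∀ z r, z ∈ X.Sd v p → X.nb z r ∈ X.Sd v p → (O' z r ↔ O z r)) →
    (X.Av O' M g m v p y k ↔ X.Av O M f m v p y k) ∧
    (X.Av O M f m v p y k →
      (∀ z, X.triP O' g z m v p y k = X.triP O f z m v p y k) ∧
      (∀ z, z ∉ X.Sd v p → X.triP O f z m v p y k = 1)) := by
  intro m
  induction m with
  | zero =>
    intro v p y hy hma hg hO
    have hgv : g v = f v := hg v (X.self_mem_Sd v p)
    have htp : (f v).symm y ≠ p := by
      intro h
      apply hy
      rw [← h, Equiv.apply_symm_apply]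
    have hrp : k ≠ f v p → (f v).symm k ≠ p := by
      intro hk h
      apply hk
      rw [← h, Equiv.apply_symm_apply]
    have a1 : k ≠ y → _ := fun hk => arm_loc X h1 h2 (O := O) (O' := O') M (w := k) (f := f)
      (g := g) htp (by rw [Equiv.apply_symm_apply]; exact hk) hma hg hO
    have a2 : k ≠ f v p → _ := fun hk => arm_loc X h1 h2 (O := O) (O' := O') M (w := f v p)
      (f := f) (g := g) (hrp hk) (by rw [Equiv.apply_symm_apply]; exact hk.symm) hma hg hO
    refine ⟨?_, ?_⟩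
    · simp only [Sys.Av]
      rw [hgv]
      constructor
      · rintro ⟨b1, b2, b3, b4⟩
        exact ⟨b1, b2, (a1 b2).1.1 b3, (a2 b1).1.1 b4⟩
      · rintro ⟨b1, b2, b3, b4⟩
        exact ⟨b1, b2, (a1 b2).1.2 b3, (a2 b1).1.2 b4⟩
    · intro hav
      simp only [Sys.Av] at hav
      obtain ⟨b1, b2, -, -⟩ := hav
      refine ⟨?_, ?_⟩
      · intro z
        simp only [Sys.triP]
        by_cases hz : z = v
        · rw [if_pos hz, if_pos hz, hgv]
        · rw [if_neg hz, if_neg hz, hgv, (a1 b2).2.1 z, (a2 b1).2.1 z]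
      · intro z hz
        have hzv : z ≠ v := by
          rintro rfl
          exact hz (X.self_mem_Sd _ p)
        simp only [Sys.triP]
        rw [if_neg hzv, (a1 b2).2.2 z hz, (a2 b1).2.2 z hz]
        rfl
  | succ m ih =>
    intro v p y hy hma hg hO
    have hgv : g v = f v := hg v (X.self_mem_Sd v p)
    have htp : (f v).symm y ≠ p := by
      intro h
      apply hy
      rw [← h, Equiv.apply_symm_apply]
    have hsub : X.Sd (X.nb v ((f v).symm y)) (X.bar ((f v).symm y)) ⊆ X.Sd v p :=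
      X.branch_subset htp
    have hvt : X.nb v ((f v).symm y) ∈ X.Sd v p := hsub (X.self_mem_Sd _ _)
    have hOt : O' v ((f v).symm y) ↔ O v ((f v).symm y) := hO v _ (X.self_mem_Sd v p) hvt
    have hne : O v ((f v).symm y) →
        X.tau (f v p) ≠ f (X.nb v ((f v).symm y)) (X.bar ((f v).symm y)) := by
      intro ho h
      have hm : X.Mt f v ((f v).symm y) := hma v _ (X.self_mem_Sd v p) hvt ho
      unfold Sys.Mt at hm
      rw [hm, Equiv.apply_symm_apply] at h
      exact hy (tau_inj X h).symm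
    have hih : O v ((f v).symm y) → _ := fun ho =>
      ih (X.nb v ((f v).symm y)) (X.bar ((f v).symm y)) (X.tau (f v p)) (hne ho)
        (fun z r hz hr ho => hma z r (hsub hz) (hsub hr) ho) (fun z hz => hg z (hsub hz))
        (fun z r hz hr => hO z r (hsub hz) (hsub hr))
    refine ⟨?_, ?_⟩
    · simp only [Sys.Av]
      rw [hgv]
      constructor
      · rintro ⟨b1, b2⟩
        exact ⟨hOt.1 b1, (hih (hOt.1 b1)).1.1 b2⟩
      · rintro ⟨b1, b2⟩
        exact ⟨hOt.2 b1, (hih b1).1.2 b2⟩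
    · intro hav
      simp only [Sys.Av] at hav
      obtain ⟨b1, b2⟩ := hav
      obtain ⟨c1, c2⟩ := (hih b1).2 b2
      refine ⟨?_, ?_⟩
      · intro z
        simp only [Sys.triP]
        by_cases hz : z = v
        · rw [if_pos hz, if_pos hz, hgv]
        · rw [if_neg hz, if_neg hz, hgv]
          exact c1 z
      · intro z hz
        have hzv : z ≠ v := by
          rintro rfl
          exact hz (X.self_mem_Sd _ p)
        simp only [Sys.triP]
        rw [if_neg hzv]
        exact c2 z (fun h => hz (hsub h))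

theorem tloc (h1 : A_LLOC) (h2 : A_PLOC) : A_TLOC := by
  intro H S L _ X O O' M m v p y k f g hy hma hg hO
  obtain ⟨k1, k2⟩ := key X h1 h2 O O' M f g k m v p y hy hma hg hO
  refine ⟨k1, fun hav => ?_⟩
  obtain ⟨c1, c2⟩ := k2 hav
  refine ⟨?_, ?_⟩
  · intro z hz
    simp only [Sys.TR]
    rw [c2 z hz]
    rfl
  · intro z hz
    simp only [Sys.TR]
    rw [c1 z, hg z hz]

end Pool.Agent.Helper46.OE
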